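import Pool.Agent.Helper15.EP.St

set_option autoImplicit false

/-!
Project EP, module KLP: the bound for the Kloosterman sums modulo a prime polynomial.
-/

open Polynomial Pool.Agent.Helper15.FC Pool.Agent.Helper15.EP

namespace Pool.Agent.Helper16.EP

noncomputable section

variable {F : Type} [Field F] [Fintype F]

/-- representatives -/
theorem klp_rep (P : F[X]) (hP : P.Monic) (x : AdjoinRoot P) :
    ∃ f ∈ Lw F P.natDegree, AdjoinRoot.mk P f = x := by
  obtain ⟨f, rfl⟩ := AdjoinRoot.mk_surjective x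
  refine ⟨f %ₘ P, ?_, ?_⟩
  · rw [mem_Lw, ← Polynomial.degree_eq_natDegree hP.ne_zero]
    exact Polynomial.degree_modByMonic_lt f hP
  · rw [AdjoinRoot.mk_eq_mk]
    refine ⟨-(f /ₘ P), ?_⟩
    have := Polynomial.modByMonic_add_div f P
    linear_combination this

theorem klp_inj (P : F[X]) (hP : P.Monic) (f g : F[X]) (hf : f ∈ Lw F P.natDegree)
    (hg : g ∈ Lw F P.natDegree) (h : AdjoinRoot.mk P f = AdjoinRoot.mk P g) : f = g := by
  rw [AdjoinRoot.mk_eq_mk] at h
  rw [mem_Lw, ← Polynomial.degree_eq_natDegree hP.ne_zero] at hf hg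
  have h1 : (f - g).degree < P.degree :=
    lt_of_le_of_lt (Polynomial.degree_sub_le f g) (max_lt hf hg)
  exact sub_eq_zero.1 (Polynomial.eq_zero_of_dvd_of_degree_lt h h1)

/-- the bijection of the small polynomials with the residue ring -/
def klpE (P : F[X]) (hP : P.Monic) : (Lw F P.natDegree) ≃ AdjoinRoot P :=
  Equiv.ofBijective (fun x => AdjoinRoot.mk P (x : F[X])) (by
    constructor
    · intro x y h
      exact Subtype.ext (klp_inj P hP x y x.2 y.2 h)
    · intro x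
      obtain ⟨f, hf, hfx⟩ := klp_rep P hP x
      exact ⟨⟨f, hf⟩, hfx⟩)

omit [Fintype F] in
/-- descent of a character -/
theorem klp_desc (P : F[X]) (ν : AddChar F[X] ℂ) (h : ν ∈ AC P) :
    ∃ μ : AddChar (AdjoinRoot P) ℂ, ∀ f : F[X], μ (AdjoinRoot.mk P f) = ν f := by
  have key : ∀ f g : F[X], AdjoinRoot.mk P f = AdjoinRoot.mk P g → ν f = ν g := by
    intro f g hfg
    rw [AdjoinRoot.mk_eq_mk] at hfg
    obtain ⟨k, hk⟩ := hfg
    have hf : f = P * k + g := by rw [← hk]; ring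
    rw [hf, AddChar.map_add_eq_mul, h k, one_mul]
  choose r hr using (AdjoinRoot.mk_surjective (g := P))
  refine ⟨{ toFun := fun x => ν (r x), map_zero_eq_one' := ?_, map_add_eq_mul' := ?_ }, ?_⟩
  · rw [key (r 0) 0 (by rw [hr, map_zero]), AddChar.map_zero_eq_one]
  · intro a b
    rw [key (r (a + b)) (r a + r b) (by rw [hr, map_add, hr, hr]), AddChar.map_add_eq_mul]
  · intro f
    exact key _ _ (hr _)

/-- all characters of a finite field are shifts of a nontrivial one -/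
theorem klp_shift {K : Type} [Field K] [Finite K] (ψ : AddChar K ℂ) (hψ : ψ ≠ 1)
    (ν : AddChar K ℂ) : ∃ c : K, ∀ x, ν x = ψ (c * x) := by
  have : Fintype K := Fintype.ofFinite K
  have h2 : Nat.card K = Nat.card (AddChar K ℂ) := by
    rw [Nat.card_eq_fintype_card, Nat.card_eq_fintype_card]
    exact (AddChar.card_eq (α := K)).symm
  have hprim : ψ.IsPrimitive := AddChar.IsPrimitive.of_ne_one hψ
  have hinj : Function.Injective ψ.mulShift := AddChar.to_mulShift_inj_of_isPrimitive hprim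
  have hcard : Fintype.card K = Fintype.card (AddChar K ℂ) := by
    rw [← Nat.card_eq_fintype_card, ← Nat.card_eq_fintype_card]
    exact h2
  have hbij := (Fintype.bijective_iff_injective_and_card ψ.mulShift).2 ⟨hinj, hcard⟩
  obtain ⟨c, hc⟩ := hbij.2 ν
  exact ⟨c, fun x => by rw [← hc, AddChar.mulShift_apply]⟩

open scoped Classical in
/-- rewriting the sum -/
theorem klp_sum (P A t : F[X]) (hP : P.Monic) (hirr : Fact (Irreducible P)) [Fintype (AdjoinRoot P)]
    (hA : ¬ P ∣ A) (ht : ¬ P ∣ t)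
    (ν1 ν2 : AddChar F[X] ℂ) (μ1 μ2 : AddChar (AdjoinRoot P) ℂ)
    (h1 : ∀ f : F[X], μ1 (AdjoinRoot.mk P f) = ν1 f)
    (h2 : ∀ f : F[X], μ2 (AdjoinRoot.mk P f) = ν2 f) :
    KS P A t ν1 ν2 = ∑ x ∈ Finset.univ.filter (fun x : AdjoinRoot P => x ≠ 0),
      μ1 x * μ2 (AdjoinRoot.mk P t * (AdjoinRoot.mk P A)⁻¹ * x⁻¹) := by
  have ha : AdjoinRoot.mk P A ≠ 0 := fun h => hA (AdjoinRoot.mk_eq_zero.1 h)
  have hτ : AdjoinRoot.mk P t ≠ 0 := fun h => ht (AdjoinRoot.mk_eq_zero.1 h)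
  have hrel : ∀ x z : F[X], P ∣ A * x * z - t →
      AdjoinRoot.mk P A * AdjoinRoot.mk P x * AdjoinRoot.mk P z = AdjoinRoot.mk P t := by
    intro x z h
    rw [← map_mul, ← map_mul, AdjoinRoot.mk_eq_mk]
    exact h
  have hrel0 : ∀ x z : F[X], P ∣ A * x * z - t → AdjoinRoot.mk P x ≠ 0 := by
    intro x z h h0
    have := hrel x z h
    rw [h0, mul_zero, zero_mul] at this
    exact hτ this.symm
  have hrelz : ∀ x z : F[X], P ∣ A * x * z - t →
      AdjoinRoot.mk P z = AdjoinRoot.mk P t * (AdjoinRoot.mk P A)⁻¹ * (AdjoinRoot.mk P x)⁻¹ := by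
    intro x z h
    have h3 := hrel x z h
    have h4 := hrel0 x z h
    rw [← h3]
    field_simp
  unfold KS
  refine Finset.sum_bij (fun p _ => AdjoinRoot.mk P p.1) ?_ ?_ ?_ ?_
  · intro p hp
    rw [Finset.mem_filter] at hp
    rw [Finset.mem_filter]
    exact ⟨Finset.mem_univ _, hrel0 _ _ hp.2⟩
  · intro p hp p' hp' hpp
    rw [Finset.mem_filter, Finset.mem_product] at hp hp'
    have e1 : p.1 = p'.1 := klp_inj P hP _ _ hp.1.1 hp'.1.1 hpp
    have e2 : p.2 = p'.2 := by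
      refine klp_inj P hP _ _ hp.1.2 hp'.1.2 ?_
      rw [hrelz _ _ hp.2, hrelz _ _ hp'.2, e1]
    exact Prod.ext e1 e2
  · intro x hx
    rw [Finset.mem_filter] at hx
    obtain ⟨f, hf, hfx⟩ := klp_rep P hP x
    obtain ⟨g, hg, hgx⟩ := klp_rep P hP (AdjoinRoot.mk P t * (AdjoinRoot.mk P A)⁻¹ * x⁻¹)
    refine ⟨(f, g), ?_, hfx⟩
    rw [Finset.mem_filter, Finset.mem_product]
    refine ⟨⟨hf, hg⟩, ?_⟩
    change P ∣ A * f * g - t
    rw [← AdjoinRoot.mk_eq_mk, map_mul, map_mul, hfx, hgx]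
    have := hx.2
    field_simp
  · intro p hp
    rw [Finset.mem_filter] at hp
    rw [h1, ← hrelz _ _ hp.2, h2]

theorem klp_sqrt (q : ℝ) (hq : 0 ≤ q) (d : ℕ) : Real.sqrt (q ^ d) = Real.sqrt q ^ d := by
  rw [Real.sqrt_eq_iff_mul_self_eq (by positivity) (by positivity), ← mul_pow,
    Real.mul_self_sqrt hq]

theorem klp_norm {K : Type} [Field K] [Finite K] (ψ : AddChar K ℂ) (x : K) : ‖ψ x‖ = 1 :=
  AddChar.norm_apply ψ x

open scoped Classical in
theorem klp_main (hWKL : StWKL) (P A t : F[X]) (hP : P.Monic) (hirr : Fact (Irreducible P))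
    (hA : ¬ P ∣ A) (ht : ¬ P ∣ t) (ν1 ν2 : AddChar F[X] ℂ) (hν1 : ν1 ∈ AC P) (hν2 : ν2 ∈ AC P) :
    ‖KS P A t ν1 ν2‖ ≤ 2 * Real.sqrt (qr F) ^ P.natDegree *
    (if ν1 = 1 ∧ ν2 = 1 then Real.sqrt (qr F) ^ P.natDegree else 1) := by
  have : Fintype (AdjoinRoot P) := Fintype.ofEquiv _ (klpE P hP)
  have hcard : (Fintype.card (AdjoinRoot P) : ℝ) = qr F ^ P.natDegree := by
    have h1 : Fintype.card (AdjoinRoot P) = Fintype.card F ^ P.natDegree := by
      rw [← Fintype.card_congr (klpE P hP), Fintype.card_coe, card_Lw]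
    rw [h1]
    push_cast
    rfl
  have ha : AdjoinRoot.mk P A ≠ 0 := fun h => hA (AdjoinRoot.mk_eq_zero.1 h)
  have hτ : AdjoinRoot.mk P t ≠ 0 := fun h => ht (AdjoinRoot.mk_eq_zero.1 h)
  obtain ⟨μ1, h1⟩ := klp_desc P ν1 hν1
  obtain ⟨μ2, h2⟩ := klp_desc P ν2 hν2
  rw [klp_sum P A t hP hirr hA ht ν1 ν2 μ1 μ2 h1 h2]
  have hq0 : (0 : ℝ) ≤ qr F := Nat.cast_nonneg _
  by_cases hc : ν1 = 1 ∧ ν2 = 1
  · rw [if_pos hc]
    have hs : Real.sqrt (qr F) ^ P.natDegree * Real.sqrt (qr F) ^ P.natDegree =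
        qr F ^ P.natDegree := by
      rw [← mul_pow, Real.mul_self_sqrt hq0]
    have hb : ‖∑ x ∈ Finset.univ.filter (fun x : AdjoinRoot P => x ≠ 0),
        μ1 x * μ2 (AdjoinRoot.mk P t * (AdjoinRoot.mk P A)⁻¹ * x⁻¹)‖ ≤
        (Fintype.card (AdjoinRoot P) : ℝ) := by
      refine (norm_sum_le _ _).trans ?_
      calc ∑ x ∈ Finset.univ.filter (fun x : AdjoinRoot P => x ≠ 0),
          ‖μ1 x * μ2 (AdjoinRoot.mk P t * (AdjoinRoot.mk P A)⁻¹ * x⁻¹)‖
          = ∑ x ∈ Finset.univ.filter (fun x : AdjoinRoot P => x ≠ 0), (1 : ℝ) := by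
            refine Finset.sum_congr rfl fun x _ => ?_
            rw [norm_mul, klp_norm, klp_norm, one_mul]
        _ = ((Finset.univ.filter (fun x : AdjoinRoot P => x ≠ 0)).card : ℝ) := by simp
        _ ≤ (Fintype.card (AdjoinRoot P) : ℝ) := by
            exact_mod_cast Finset.card_le_univ _
    rw [hcard] at hb
    have hpos : (0 : ℝ) ≤ qr F ^ P.natDegree := pow_nonneg hq0 _
    calc _ ≤ qr F ^ P.natDegree := hb
      _ ≤ 2 * qr F ^ P.natDegree := by linarith
      _ = _ := by rw [mul_assoc, hs]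
  · rw [if_neg hc, mul_one]
    -- a nontrivial character
    have hex : ∃ ψ : AddChar (AdjoinRoot P) ℂ, ψ ≠ 1 ∧ (ψ = μ1 ∨ ψ = μ2) := by
      by_contra hno
      push Not at hno
      have e1 : μ1 = 1 := by
        by_contra h
        exact (hno μ1 h).1 rfl
      have e2 : μ2 = 1 := by
        by_contra h
        exact (hno μ2 h).2 rfl
      refine hc ⟨?_, ?_⟩
      · ext f
        rw [← h1 f, e1]
        simp
      · ext f
        rw [← h2 f, e2]
        simp
    obtain ⟨ψ, hψ, hor⟩ := hex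
    obtain ⟨c1, hc1⟩ := klp_shift ψ hψ μ1
    obtain ⟨c2, hc2⟩ := klp_shift ψ hψ μ2
    have hcc : c1 ≠ 0 ∨ c2 ≠ 0 := by
      by_contra hno
      push Not at hno
      have e1 : μ1 = 1 := by
        ext x
        rw [hc1, hno.1, zero_mul, AddChar.map_zero_eq_one]
        simp
      have e2 : μ2 = 1 := by
        ext x
        rw [hc2, hno.2, zero_mul, AddChar.map_zero_eq_one]
        simp
      rcases hor with h | h
      · exact hψ (h.trans e1)
      · exact hψ (h.trans e2)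
    have hw := hWKL (AdjoinRoot P) ψ c1 (c2 * (AdjoinRoot.mk P t * (AdjoinRoot.mk P A)⁻¹)) hψ (by
      rcases hcc with h | h
      · exact Or.inl h
      · exact Or.inr (mul_ne_zero h (mul_ne_zero hτ (inv_ne_zero ha))))
    have hqs : Real.sqrt (qr (AdjoinRoot P)) = Real.sqrt (qr F) ^ P.natDegree := by
      rw [← klp_sqrt _ hq0, ← hcard]
    rw [hqs] at hw
    refine le_trans (le_of_eq ?_) hw
    congr 1
    refine Finset.sum_congr rfl fun x _ => ?_
    rw [hc1, hc2, ← AddChar.map_add_eq_mul]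
    congr 1
    ring

theorem hKLP (hWKL : StWKL) : StKLP := by
  classical
  intro F _ _ P A t ν1 ν2 hP hirr ht hν1 hν2
  by_cases hA : P ∣ A
  · have h0 : KS P A t ν1 ν2 = 0 := by
      unfold KS
      refine Finset.sum_eq_zero fun p hp => ?_
      rw [Finset.mem_filter] at hp
      exfalso
      apply ht
      have h1 : P ∣ A * p.1 * p.2 := Dvd.dvd.mul_right (Dvd.dvd.mul_right hA _) _
      have h2 := dvd_sub h1 hp.2
      have h3 : A * p.1 * p.2 - (A * p.1 * p.2 - t) = t := by ring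
      rwa [h3] at h2
    rw [h0, norm_zero]
    split_ifs <;> positivity
  · exact klp_main hWKL P A t hP ⟨hirr⟩ hA ht ν1 ν2 hν1 hν2

end

end Pool.Agent.Helper16.EP
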