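import Pool.Agent.Helper68.EP.St1

/-!
# Project EP (MP_cb927e_an), module ETG: few atypical points
-/

set_option autoImplicit false

open MeasureTheory Set Filter Topology
open scoped ENNReal RealInnerProductSpace

namespace Pool.Agent.Helper16.EP

open Pool.Agent.Helper68.LM (Pl BB Bd Av HL ft fm DQ)
open Pool.Agent.Helper68.EP Pool.Agent.Helper20.RG
open Pool.Agent.Helper20.RL (RQ Rich BM Fml)

/-- one width -/
theorem etg_one (hLGR : Pool.Agent.Helper20.RL.StLGR) (hLMX : Pool.Agent.Helper20.RL.StLMX)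
    (hLFM : Pool.Agent.Helper20.RL.StLFM) (F F' : Set Pl) (s θ ϑ : ℝ) (V : Set Pl) (a : ℤ)
    (B : Pl → ℤ) (β : ℤ) (hϑ : 0 < ϑ)
    (hV : Fml F s θ V (fun _ => a) B) (hB : ∀ z ∈ V, B z = β) :
    volume {z | z ∈ F' ∧ z ∈ V ∧ ∃ a' : ℤ, a' ≤ a ∧ ¬ Rich F' s a' (B z) ϑ z} ≤
      ENNReal.ofReal ϑ * volume V := by
  obtain ⟨hcell, hsame, hnest, -, -⟩ := hLGR
  obtain ⟨hR, -⟩ := hLFM
  have key := hLMX s (fun k => k) (fun _ => β) (Iic a)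
    (fun k => {z | z ∈ V ∧ k ≤ a ∧ ¬ Rich F' s k β ϑ z})
    {z | z ∈ F' ∧ z ∈ V ∧ ∃ a' : ℤ, a' ≤ a ∧ ¬ Rich F' s a' (B z) ϑ z} V (ENNReal.ofReal ϑ)
    (fun _ _ h => h) (fun _ _ _ => le_refl _) bddAbove_Iic ?_ ?_ ?_
  · refine key.trans ?_
    gcongr
    exact inter_subset_left
  · -- union of cells
    rintro k - y ⟨hyV, hky, hyR⟩ z' hz'
    have h1 : z' ∈ RQ s a (B y) y := by
      rw [hB y hyV]; exact hnest s k β a β y hky le_rfl hz'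
    obtain ⟨h2, -, -⟩ := hV.inv y hyV z' h1
    refine ⟨h2, hky, ?_⟩
    rw [(hR F' s k β ϑ).2 y z' hz']
    exact hyR
  · -- covering
    rintro z ⟨hzF, hzV, a', ha', hRa⟩
    rw [hB z hzV] at hRa
    simp only [mem_iUnion]
    exact ⟨a', ha', hzV, ha', hRa⟩
  · -- density
    rintro k - y ⟨hyV, hky, hyR⟩
    have hsub : RQ s k β y ⊆ V := by
      intro z' hz'
      have h1 : z' ∈ RQ s a (B y) y := by
        rw [hB y hyV]; exact hnest s k β a β y hky le_rfl hz'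
      exact (hV.inv y hyV z' h1).1
    have h2 : V ∩ RQ s k β y = RQ s k β y := inter_eq_right.2 hsub
    show volume ({z | z ∈ {z | z ∈ F' ∧ z ∈ V ∧ ∃ a' : ℤ, a' ≤ a ∧ ¬ Rich F' s a' (B z) ϑ z} ∧
      ∀ k' ∈ Iic a, k < k' → z ∉ {z | z ∈ V ∧ k' ≤ a ∧ ¬ Rich F' s k' β ϑ z}} ∩
        RQ s k β y) ≤ ENNReal.ofReal ϑ * volume (V ∩ RQ s k β y)
    rw [h2, (hcell s k β y).2.1, ← ENNReal.ofReal_mul hϑ.le]
    have h3 : volume (F' ∩ RQ s k β y) ≤ ENNReal.ofReal (ϑ * (2 : ℝ) ^ (k + β)) := by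
      unfold Rich at hyR
      exact (not_le.1 hyR).le
    refine le_trans (measure_mono ?_) h3
    rintro z ⟨⟨hz, -⟩, hz2⟩
    exact ⟨hz.1, hz2⟩

theorem hETG (hLGR : Pool.Agent.Helper20.RL.StLGR) (hLMX : Pool.Agent.Helper20.RL.StLMX)
    (hLFM : Pool.Agent.Helper20.RL.StLFM) : StETG := by
  intro F F' s θ ϑ V a B hF hF' hθ hϑ hV
  set Vb : ℤ → Set Pl := fun β => {z | z ∈ V ∧ B z = β} with hVb
  have hFb : ∀ β, Fml F s θ (Vb β) (fun _ => a) B := by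
    intro β
    refine ⟨?_, ?_⟩
    · rintro z ⟨hz, hzβ⟩ z' hz'
      obtain ⟨h1, h2, h3⟩ := hV.inv z hz z' hz'
      exact ⟨⟨h1, by rw [h3, hzβ]⟩, h2, h3⟩
    · rintro z ⟨hz, -⟩
      exact hV.rich z hz
  have hVbm : ∀ β, MeasurableSet (Vb β) :=
    fun β => (hLFM.2 F s θ (Vb β) (fun _ => a) B hF (hFb β) hθ).2.1
  have hdisj : Pairwise (Function.onFun Disjoint Vb) := by
    intro i j hij
    rw [Function.onFun, Set.disjoint_left]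
    rintro z ⟨-, h1⟩ ⟨-, h2⟩
    exact hij (h1.symm.trans h2)
  have hU : V = ⋃ β, Vb β := by
    ext z
    simp only [mem_iUnion, hVb]
    constructor
    · intro hz; exact ⟨B z, hz, rfl⟩
    · rintro ⟨β, hz, -⟩; exact hz
  calc volume {z | z ∈ F' ∧ z ∈ V ∧ ∃ a' : ℤ, a' ≤ a ∧ ¬ Rich F' s a' (B z) ϑ z}
      ≤ volume (⋃ β, {z | z ∈ F' ∧ z ∈ Vb β ∧ ∃ a' : ℤ, a' ≤ a ∧ ¬ Rich F' s a' (B z) ϑ z}) := by
        refine measure_mono ?_
        rintro z ⟨hz1, hz2, hz3⟩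
        exact mem_iUnion.2 ⟨B z, hz1, ⟨hz2, rfl⟩, hz3⟩
    _ ≤ ∑' β, volume {z | z ∈ F' ∧ z ∈ Vb β ∧ ∃ a' : ℤ, a' ≤ a ∧ ¬ Rich F' s a' (B z) ϑ z} :=
        measure_iUnion_le _
    _ ≤ ∑' β, ENNReal.ofReal ϑ * volume (Vb β) :=
        ENNReal.tsum_le_tsum fun β =>
          etg_one hLGR hLMX hLFM F F' s θ ϑ (Vb β) a B β hϑ (hFb β) (fun z hz => hz.2)
    _ = ENNReal.ofReal ϑ * ∑' β, volume (Vb β) := ENNReal.tsum_mul_left
    _ = ENNReal.ofReal ϑ * volume V := by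
        conv_rhs => rw [hU]
        rw [measure_iUnion hdisj hVbm]

end Pool.Agent.Helper16.EP
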